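import Pool.Agent.W739.CY.Stm

/-!
# The 1-dependent 4-coloring (part CY-D4)
-/

set_option autoImplicit false

namespace Pool.Agent.W753.CY

open Pool.Agent.W739.CY Finset

variable {C : Type}

/-- sum of `f` over all words obtained from `w` by deleting a letter -/
def ds : (List C → ℝ) → List C → ℝ
  | _, [] => 0
  | f, x :: w => f w + ds (fun v => f (x :: v)) w

lemma ds_append (f : List C → ℝ) (u v : List C) :
    ds f (u ++ v) = ds (fun u' => f (u' ++ v)) u + ds (fun v' => f (u ++ v')) v := by
  induction u generalizing f with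
  | nil => simp [ds]
  | cons x u ih =>
    simp only [List.cons_append, ds, ih]
    ring

lemma ds_congr (f g : List C → ℝ) (w : List C) (h : ∀ v, v.length + 1 = w.length → f v = g v) :
    ds f w = ds g w := by
  induction w generalizing f g with
  | nil => rfl
  | cons x w ih =>
    rw [ds, ds, h w rfl, ih _ _ (fun v hv => h _ (by simp [hv]))]

lemma ds_zero (f : List C → ℝ) (w : List C) (h : ∀ v, f v = 0) : ds f w = 0 := by
  induction w generalizing f with
  | nil => rfl
  | cons x w ih =>
    rw [ds, h w, ih _ (fun v => h _), add_zero]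

lemma ds_sum {ι : Type} (s : Finset ι) (f : ι → List C → ℝ) (w : List C) :
    ∑ i ∈ s, ds (f i) w = ds (fun v => ∑ i ∈ s, f i v) w := by
  induction w generalizing f with
  | nil => simp [ds]
  | cons x w ih =>
    simp only [ds]
    rw [Finset.sum_add_distrib, ih]

lemma ds_mul (c : ℝ) (f : List C → ℝ) (w : List C) : ds (fun v => c * f v) w = c * ds f w := by
  induction w generalizing f with
  | nil => simp [ds]
  | cons x w ih =>
    simp only [ds]
    rw [ih, mul_add]

lemma ds_nonneg (f : List C → ℝ) (w : List C) (h : ∀ v, 0 ≤ f v) : 0 ≤ ds f w := by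
  induction w generalizing f with
  | nil => exact le_refl 0
  | cons x w ih =>
    rw [ds]
    exact add_nonneg (h _) (ih _ (fun v => h _))

lemma ds_map (σ : C → C) (f : List C → ℝ) (w : List C) :
    ds f (w.map σ) = ds (fun v => f (v.map σ)) w := by
  induction w generalizing f with
  | nil => rfl
  | cons x w ih =>
    simp only [List.map_cons, ds, ih]

open Classical in
/-- number of ways to delete the letters so that all words are admissible -/
noncomputable def R (ok : List C → Prop) : ℕ → List C → ℝ
  | 0, w => if ok w then 1 else 0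
  | n + 1, w => if ok w then ds (R ok n) w else 0

lemma R_not (ok : List C → Prop) (n : ℕ) (w : List C) (h : ¬ ok w) : R ok n w = 0 := by
  cases n <;> simp [R, h]

lemma R_nonneg (ok : List C → Prop) (n : ℕ) (w : List C) : 0 ≤ R ok n w := by
  induction n generalizing w with
  | zero =>
    rw [R]
    split_ifs <;> norm_num
  | succ n ih =>
    rw [R]
    split_ifs
    · exact ds_nonneg _ _ ih
    · exact le_refl 0

lemma R_map (ok : List C → Prop) (σ : C → C) (h : ∀ w : List C, ok (w.map σ) ↔ ok w) (n : ℕ)
    (w : List C) : R ok n (w.map σ) = R ok n w := by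
  induction n generalizing w with
  | zero =>
    by_cases hw : ok w
    · rw [R, R, if_pos ((h w).2 hw), if_pos hw]
    · rw [R_not ok _ _ hw, R_not ok _ _ (fun h1 => hw ((h w).1 h1))]
  | succ n ih =>
    by_cases hw : ok w
    · rw [R, R, if_pos ((h w).2 hw), if_pos hw, ds_map]
      exact ds_congr _ _ _ (fun v _ => ih v)
    · rw [R_not ok _ _ hw, R_not ok _ _ (fun h1 => hw ((h w).1 h1))]

/-- proper words -/
def okB (w : List C) : Prop := w.IsChain (· ≠ ·)

/-- cyclically proper words -/
def okC (w : List C) : Prop := (w ++ w.head?.toList).IsChain (· ≠ ·)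

noncomputable def B (w : List C) : ℝ := R okB w.length w

noncomputable def Bc (w : List C) : ℝ := R okC (w.length - 2) w

lemma B_not (w : List C) (h : ¬ okB w) : B w = 0 := R_not _ _ _ h

lemma Bc_not (w : List C) (h : ¬ okC w) : Bc w = 0 := R_not _ _ _ h

lemma B_rec (w : List C) (h : okB w) (h0 : w ≠ []) : B w = ds B w := by
  obtain ⟨x, w', rfl⟩ := List.exists_cons_of_ne_nil h0
  rw [B, List.length_cons, R, if_pos h]
  apply ds_congr
  intro v hv
  rw [B]
  congr 1
  simpa using hv.symm

lemma Bc_rec (w : List C) (h : okC w) (h0 : 3 ≤ w.length) : Bc w = ds Bc w := by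
  obtain ⟨n, hn⟩ : ∃ n, w.length = n + 3 := ⟨w.length - 3, by omega⟩
  have h1 : w.length - 2 = n + 1 := by omega
  rw [Bc, h1, R, if_pos h]
  apply ds_congr
  intro v hv
  rw [Bc]
  congr 1
  omega

lemma B_dup (u v : List C) (x : C) : B (u ++ x :: x :: v) = 0 := by
  apply B_not
  unfold okB
  rw [List.isChain_append]
  simp

lemma B_nil : B ([] : List C) = 1 := by
  simp [B, R, okB]

lemma B_append_not_left (u v : List C) (h : ¬ okB u) : B (u ++ v) = 0 := by
  apply B_not
  intro h1
  exact h (List.isChain_append.1 h1).1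

lemma B_append_not_right (u v : List C) (h : ¬ okB v) : B (u ++ v) = 0 := by
  apply B_not
  intro h1
  exact h (List.isChain_append.1 h1).2.1

/-- the pointwise identity behind the recursion of the star sums -/
lemma sum_ok {C : Type} [Fintype C] [DecidableEq C] (l r : Option C) (g : C → ℝ)
    (h : l = r → ∀ c, l = some c → g c = 0) :
    ∑ x : C, (if l ≠ some x ∧ r ≠ some x then g x else 0) =
      ∑ x : C, g x - (l.elim 0 g) - (r.elim 0 g) := by
  have h1 : ∀ l : Option C, l.elim 0 g = ∑ x : C, if l = some x then g x else 0 := by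
    intro l
    cases l with
    | none => simp
    | some c =>
      simp only [Option.elim, Option.some.injEq]
      rw [Finset.sum_ite_eq]
      simp
  rw [h1 l, h1 r, ← Finset.sum_sub_distrib, ← Finset.sum_sub_distrib]
  refine Finset.sum_congr rfl fun x _ => ?_
  by_cases h2 : l = some x
  · by_cases h3 : r = some x
    · have := h (h2.trans h3.symm) x h2
      simp [h2, h3, this]
    · simp [h2, h3]
  · by_cases h3 : r = some x
    · simp [h2, h3]
    · simp [h2, h3]

lemma okB_mid (u v : List C) (x : C) :
    okB (u ++ x :: v) ↔ (okB u ∧ okB v) ∧ (u.getLast? ≠ some x ∧ v.head? ≠ some x) := by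
  unfold okB
  rw [List.isChain_append, List.isChain_cons]
  constructor
  · rintro ⟨h1, ⟨h2, h3⟩, h4⟩
    refine ⟨⟨h1, h3⟩, ?_, ?_⟩
    · intro h
      exact h4 x h x rfl rfl
    · intro h
      exact h2 x h rfl
  · rintro ⟨⟨h1, h3⟩, h4, h2⟩
    refine ⟨h1, ⟨?_, h3⟩, ?_⟩
    · intro b hb e
      exact h2 (e ▸ hb)
    · intro a ha b hb e
      have hb' : b = x := by simpa using hb.symm
      exact h4 (by rw [← hb', ← e]; exact ha)

lemma B_mid (u v : List C) (hu : okB u) (hv : okB v) (x : C)
    (hx : u.getLast? ≠ some x ∧ v.head? ≠ some x) :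
    B (u ++ x :: v) = ds (fun u' => B (u' ++ x :: v)) u + B (u ++ v) +
      ds (fun v' => B (u ++ x :: v')) v := by
  rw [B_rec _ ((okB_mid u v x).2 ⟨⟨hu, hv⟩, hx⟩) (by simp), ds_append, ds]
  ring

lemma g_left (u v : List C) (x : C) (hx : u.getLast? = some x) :
    ds (fun u' => B (u' ++ x :: v)) u + B (u ++ v) + ds (fun v' => B (u ++ x :: v')) v =
      2 * B (u ++ v) := by
  obtain ⟨u0, rfl⟩ : ∃ u0, u = u0 ++ [x] := List.getLast?_eq_some_iff.1 hx
  rw [ds_append, ds_zero (fun v' => B (u0 ++ [x] ++ x :: v')) v
    (fun v' => by rw [List.append_assoc]; exact B_dup _ _ _)]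
  rw [ds_zero (fun u' => B (u' ++ [x] ++ x :: v)) u0
    (fun v' => by rw [List.append_assoc]; exact B_dup _ _ _)]
  simp only [ds, List.append_nil, List.append_assoc, List.cons_append, List.nil_append]
  ring

lemma g_right (u v : List C) (x : C) (hx : v.head? = some x) :
    ds (fun u' => B (u' ++ x :: v)) u + B (u ++ v) + ds (fun v' => B (u ++ x :: v')) v =
      2 * B (u ++ v) := by
  obtain ⟨v0, rfl⟩ : ∃ v0, v = x :: v0 := List.head?_eq_some_iff.1 hx
  rw [ds, ds_zero (fun u' => B (u' ++ x :: x :: v0)) u (fun v' => B_dup _ _ _),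
    ds_zero (fun v' => B (u ++ x :: x :: v')) v0 (fun v' => B_dup _ _ _)]
  ring

lemma B_star_step [Fintype C] (u v : List C) (hu : okB u) (hv : okB v) :
    ∑ x : C, B (u ++ x :: v) =
      ds (fun u' => ∑ x : C, B (u' ++ x :: v)) u + ds (fun v' => ∑ x : C, B (u ++ x :: v')) v +
      Fintype.card C * B (u ++ v) - u.getLast?.elim 0 (fun _ => 2 * B (u ++ v)) -
        v.head?.elim 0 (fun _ => 2 * B (u ++ v)) := by
  classical
  let g : C → ℝ := fun x => ds (fun u' => B (u' ++ x :: v)) u + B (u ++ v) +
      ds (fun v' => B (u ++ x :: v')) v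
  have h1 : ∀ x, B (u ++ x :: v) = if u.getLast? ≠ some x ∧ v.head? ≠ some x then g x else 0 := by
    intro x
    split_ifs with h
    · exact B_mid u v hu hv x h
    · exact B_not _ (fun h2 => h ((okB_mid u v x).1 h2).2)
  have h2 : ∀ c, u.getLast? = some c → g c = 2 * B (u ++ v) := fun c hc => g_left u v c hc
  have h3 : ∀ c, v.head? = some c → g c = 2 * B (u ++ v) := fun c hc => g_right u v c hc
  rw [Finset.sum_congr rfl (fun x _ => h1 x), sum_ok u.getLast? v.head? g]
  · have h4 : ∑ x : C, g x = ds (fun u' => ∑ x : C, B (u' ++ x :: v)) u +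
        ds (fun v' => ∑ x : C, B (u ++ x :: v')) v + Fintype.card C * B (u ++ v) := by
      simp only [g]
      rw [Finset.sum_add_distrib, Finset.sum_add_distrib, ds_sum, ds_sum]
      simp only [Finset.sum_const, Finset.card_univ, nsmul_eq_mul]
      ring
    have h5 : u.getLast?.elim 0 g = u.getLast?.elim 0 (fun _ => 2 * B (u ++ v)) := by
      cases h : u.getLast? with
      | none => rfl
      | some c => exact h2 c h
    have h6 : v.head?.elim 0 g = v.head?.elim 0 (fun _ => 2 * B (u ++ v)) := by
      cases h : v.head? with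
      | none => rfl
      | some c => exact h3 c h
    rw [h4, h5, h6]
  · intro h c hc
    rw [h2 c hc]
    obtain ⟨u0, rfl⟩ : ∃ u0, u = u0 ++ [c] := List.getLast?_eq_some_iff.1 hc
    obtain ⟨v0, rfl⟩ : ∃ v0, v = c :: v0 := List.head?_eq_some_iff.1 (h ▸ hc)
    rw [List.append_assoc]
    have := B_dup u0 v0 c
    simp only [List.cons_append, List.nil_append] at this ⊢
    rw [this, mul_zero]

lemma ds_mul_right (f : List C → ℝ) (c : ℝ) (w : List C) :
    ds (fun v => f v * c) w = ds f w * c := by
  have := ds_mul c f w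
  rw [mul_comm (ds f w) c, ← this]
  congr 1
  funext v
  ring

lemma elim_getLast (a : C) (u : List C) (c : ℝ) :
    (a :: u).getLast?.elim 0 (fun _ => c) = c := by
  rw [List.getLast?_cons]
  rfl

lemma elim_head (a : C) (u : List C) (c : ℝ) :
    (a :: u).head?.elim 0 (fun _ => c) = c := rfl

lemma B_star [Fintype C] (hc : Fintype.card C = 4) (n : ℕ) : ∀ (u v : List C),
    u.length + v.length = n →
    ∑ x : C, B (u ++ x :: v) = 2 * ((n + 2).choose (u.length + 1) : ℕ) * (B u * B v) := by
  induction n with
  | zero =>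
    intro u v h
    have hu : u = [] := List.eq_nil_of_length_eq_zero (by omega)
    have hv : v = [] := List.eq_nil_of_length_eq_zero (by omega)
    subst hu
    subst hv
    have h1 : okB ([] : List C) := by simp [okB]
    rw [B_star_step [] [] h1 h1, hc]
    simp [ds, B_nil]
    norm_num
  | succ n ih =>
    intro u v h
    by_cases hu : okB u
    · by_cases hv : okB v
      · have e1 : u ≠ [] → ds (fun u' => ∑ x : C, B (u' ++ x :: v)) u =
            2 * ((n + 2).choose u.length : ℕ) * (B u * B v) := by
          intro hne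
          rw [ds_congr _ (fun u' => 2 * ((n + 2).choose u.length : ℕ) * (B u' * B v)) u
            (fun u' hu' => by rw [ih u' v (by omega), hu'])]
          rw [ds_mul, ds_mul_right, ← B_rec u hu hne]
        have e2 : v ≠ [] → ds (fun v' => ∑ x : C, B (u ++ x :: v')) v =
            2 * ((n + 2).choose (u.length + 1) : ℕ) * (B u * B v) := by
          intro hne
          rw [ds_congr _ (fun v' => 2 * ((n + 2).choose (u.length + 1) : ℕ) * (B u * B v')) v
            (fun v' hv' => by rw [ih u v' (by omega)])]
          rw [ds_mul, ds_mul, ← B_rec v hv hne]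
        rw [B_star_step u v hu hv, hc]
        have hpas : ((n + 1 + 2).choose (u.length + 1) : ℝ) =
            ((n + 2).choose u.length : ℕ) + ((n + 2).choose (u.length + 1) : ℕ) := by
          rw [← Nat.cast_add, ← Nat.choose_succ_succ]
        rcases u with _ | ⟨a, u0⟩
        · rcases v with _ | ⟨b, v0⟩
          · simp at h
          · rw [e2 (by simp)]
            have hn : v0.length = n := by simpa using h
            simp [ds, B_nil]
            ring
        · rcases v with _ | ⟨b, v0⟩
          · rw [e1 (by simp), elim_getLast, hpas]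
            have hn : u0.length = n := by simpa using h
            have h3 : (n + 2).choose (n + 1 + 1) = 1 := Nat.choose_self _
            simp only [ds, B_nil, List.length_cons, hn, h3, List.head?_nil, Option.elim_none,
              List.append_nil]
            push_cast
            ring
          · rw [e1 (by simp), e2 (by simp), hpas, elim_getLast, elim_head]
            push_cast
            ring
      · rw [B_not v hv, mul_zero, mul_zero]
        refine Finset.sum_eq_zero fun x _ => ?_
        have := B_append_not_right (u ++ [x]) v hv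
        simpa using this
    · rw [B_not u hu, zero_mul, mul_zero]
      exact Finset.sum_eq_zero fun x _ => B_append_not_left u _ hu

lemma okC_snoc (w : List C) (x : C) (hw : w ≠ []) :
    okC (w ++ [x]) ↔ okB w ∧ (w.getLast? ≠ some x ∧ w.head? ≠ some x) := by
  obtain ⟨f, w1, rfl⟩ := List.exists_cons_of_ne_nil hw
  have h := okB_mid (f :: w1) [f] x
  have h1 : okB [f] := by simp [okB]
  have h2 : okC (f :: w1 ++ [x]) ↔ okB (f :: w1 ++ x :: [f]) := by
    simp [okC, okB]
  rw [h2, h]
  simp [h1]

lemma okC_rot (x : C) (w : List C) : okC (x :: w) ↔ okC (w ++ [x]) := by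
  rcases w with _ | ⟨f, w1⟩
  · rfl
  · unfold okC
    simp only [List.head?_cons, Option.toList_some, List.cons_append]
    rw [List.isChain_cons_cons, ← List.cons_append, ← List.cons_append, ← List.cons_append,
      List.isChain_append (l₁ := f :: w1 ++ [x]) (l₂ := [f])]
    have h1 : (f :: w1 ++ [x]).getLast? = some x := List.getLast?_concat
    rw [h1]
    constructor
    · rintro ⟨h2, h3⟩
      refine ⟨h3, by simp, ?_⟩
      intro a ha b hb
      have ha' : a = x := by simpa using ha.symm
      have hb' : b = f := by simpa using hb.symm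
      rw [ha', hb']
      exact h2
    · rintro ⟨h2, -, h3⟩
      exact ⟨h3 x rfl f rfl, h2⟩

lemma R_rot (n : ℕ) (x : C) (w : List C) : R okC n (x :: w) = R okC n (w ++ [x]) := by
  induction n generalizing w with
  | zero =>
    by_cases h : okC (x :: w)
    · rw [R, R, if_pos h, if_pos ((okC_rot x w).1 h)]
    · rw [R_not _ _ _ h, R_not _ _ _ (fun h1 => h ((okC_rot x w).2 h1))]
  | succ n ih =>
    by_cases h : okC (x :: w)
    · rw [R, R, if_pos h, if_pos ((okC_rot x w).1 h), ds, ds_append]
      simp only [ds, ih, List.append_nil]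
      ring
    · rw [R_not _ _ _ h, R_not _ _ _ (fun h1 => h ((okC_rot x w).2 h1))]

lemma Bc_rot (x : C) (w : List C) : Bc (x :: w) = Bc (w ++ [x]) := by
  rw [Bc, Bc, R_rot]
  simp

lemma Bc_dup (x : C) (w : List C) : Bc (x :: x :: w) = 0 := by
  apply Bc_not
  unfold okC
  simp

lemma Bc_dup_right (x : C) (w : List C) : Bc (w ++ [x] ++ [x]) = 0 := by
  apply Bc_not
  unfold okC
  rw [List.append_assoc, List.append_assoc, List.isChain_append]
  simp

lemma Bc_ends (x : C) (w : List C) : Bc (x :: w ++ [x]) = 0 := by
  rw [List.cons_append, Bc_rot]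
  exact Bc_dup_right x w

lemma Bc_mid (w : List C) (x : C) (h : okC (w ++ [x])) (hl : 2 ≤ w.length) :
    Bc (w ++ [x]) = ds (fun w' => Bc (w' ++ [x])) w + Bc w := by
  rw [Bc_rec _ h (by simp; omega), ds_append]
  simp [ds]

lemma gc_left (w : List C) (x : C) (hx : w.getLast? = some x) :
    ds (fun w' => Bc (w' ++ [x])) w + Bc w = 2 * Bc w := by
  obtain ⟨w0, rfl⟩ : ∃ w0, w = w0 ++ [x] := List.getLast?_eq_some_iff.1 hx
  rw [ds_append, ds_zero (fun w' => Bc (w' ++ [x] ++ [x])) w0 (fun v => Bc_dup_right x v)]
  simp [ds]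
  ring

lemma gc_right (w : List C) (x : C) (hx : w.head? = some x) :
    ds (fun w' => Bc (w' ++ [x])) w + Bc w = 2 * Bc w := by
  obtain ⟨w1, rfl⟩ : ∃ w1, w = x :: w1 := List.head?_eq_some_iff.1 hx
  rw [ds, ds_zero (fun v => Bc (x :: v ++ [x])) w1 (fun v => Bc_ends x v), ← Bc_rot]
  ring

lemma Bc_both (w : List C) (x : C) (hx : w.getLast? = some x) (hy : w.head? = some x) :
    Bc w = 0 := by
  obtain ⟨w0, rfl⟩ : ∃ w0, w = w0 ++ [x] := List.getLast?_eq_some_iff.1 hx
  apply Bc_not
  unfold okC
  rw [hy, List.append_assoc, List.isChain_append]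
  simp

lemma Bc_star [Fintype C] (hc : Fintype.card C = 4) (n : ℕ) : ∀ w : List C, w.length = n + 1 →
    ∑ x : C, Bc (w ++ [x]) = 3 * B w := by
  classical
  induction n with
  | zero =>
    intro w hw
    obtain ⟨a, rfl⟩ := List.length_eq_one_iff.1 hw
    have h1 : ∀ x : C, Bc ([a] ++ [x]) = if a = x then 0 else 1 := by
      intro x
      by_cases h : a = x
      · rw [if_pos h, ← h]
        exact Bc_dup_right a []
      · rw [if_neg h]
        have h2 : okC ([a] ++ [x]) := by
          rw [okC_snoc [a] x (by simp)]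
          refine ⟨by simp [okB], ?_, ?_⟩ <;> simpa using h
        show R okC 0 ([a] ++ [x]) = 1
        rw [R, if_pos h2]
    have h2 : B [a] = 1 := by
      rw [B_rec [a] (by simp [okB]) (by simp)]
      simp [ds, B_nil]
    rw [Finset.sum_congr rfl (fun x _ => h1 x), h2]
    have h3 : ∀ x : C, (if a = x then (0 : ℝ) else 1) = 1 - (if a = x then 1 else 0) := by
      intro x
      split_ifs <;> norm_num
    rw [Finset.sum_congr rfl (fun x _ => h3 x), Finset.sum_sub_distrib, Finset.sum_ite_eq]
    simp [hc]
    norm_num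
  | succ n ih =>
    intro w hw
    have hne : w ≠ [] := by
      rintro rfl
      simp at hw
    by_cases hB : okB w
    · let g : C → ℝ := fun x => ds (fun w' => Bc (w' ++ [x])) w + Bc w
      have h1 : ∀ x, Bc (w ++ [x]) =
          if w.getLast? ≠ some x ∧ w.head? ≠ some x then g x else 0 := by
        intro x
        split_ifs with h
        · exact Bc_mid w x ((okC_snoc w x hne).2 ⟨hB, h⟩) (by omega)
        · exact Bc_not _ (fun h2 => h ((okC_snoc w x hne).1 h2).2)
      obtain ⟨l, hl⟩ : ∃ l, w.getLast? = some l :=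
        ⟨w.getLast hne, List.getLast?_eq_some_getLast hne⟩
      obtain ⟨r, hr⟩ : ∃ r, w.head? = some r := ⟨w.head hne, List.head?_eq_some_head hne⟩
      rw [Finset.sum_congr rfl (fun x _ => h1 x), sum_ok w.getLast? w.head? g, hl, hr]
      · have h2 : ∑ x : C, g x = 3 * B w + 4 * Bc w := by
          simp only [g]
          rw [Finset.sum_add_distrib, ds_sum, ds_congr _ (fun w' => 3 * B w') w
            (fun v hv => ih v (by omega)), ds_mul, ← B_rec w hB hne]
          simp [hc]
        simp only [Option.elim_some]
        rw [h2, show g l = 2 * Bc w from gc_left w l hl, show g r = 2 * Bc w from gc_right w r hr]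
        ring
      · intro h c hc'
        rw [show g c = 2 * Bc w from gc_left w c hc', Bc_both w c hc' (h ▸ hc'), mul_zero]
    · rw [B_not w hB, mul_zero]
      exact Finset.sum_eq_zero fun x _ =>
        Bc_not _ (fun h2 => hB ((okC_snoc w x hne).1 h2).1)

lemma okC_map (σ : Equiv.Perm C) (w : List C) : okC (w.map σ) ↔ okC w := by
  unfold okC
  have h : w.map σ ++ (w.map σ).head?.toList = (w ++ w.head?.toList).map σ := by
    rcases w with _ | ⟨f, w1⟩ <;> simp
  rw [h, List.isChain_map]
  simp

lemma Bc_map (σ : Equiv.Perm C) (w : List C) : Bc (w.map σ) = Bc w := by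
  rw [Bc, Bc, R_map okC σ (okC_map σ), List.length_map]

theorem t_D4 : S_D4 := by
  refine ⟨{
    P := fun w => B w / (2 ^ w.length * (w.length + 1).factorial)
    Cy := fun w => Bc w / (3 * (2 ^ (w.length - 1) * (w.length).factorial))
    P_nil := ?_
    P_star := ?_
    Cy_nonneg := ?_
    Cy_rot := ?_
    Cy_map := ?_
    Cy_proper := ?_
    Cy_star := ?_ }⟩
  · simp [B_nil]
  · intro u v
    rw [← (Equiv.funUnique (Fin 1) (Fin 4)).symm.sum_comp]
    have h1 : ∀ x : Fin 4, u ++ List.ofFn ((Equiv.funUnique (Fin 1) (Fin 4)).symm x) ++ v =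
        u ++ x :: v := by
      intro x
      simp
    have hl : ∀ x : Fin 4, (u ++ x :: v).length = u.length + v.length + 1 := by
      intro x
      simp
      omega
    simp only [h1, hl]
    rw [← Finset.sum_div, B_star (by simp) (u.length + v.length) u v rfl]
    have hfac : ((u.length + v.length + 2).choose (u.length + 1) : ℝ) *
        ((u.length + 1).factorial : ℕ) * ((v.length + 1).factorial : ℕ) =
        ((u.length + v.length + 1 + 1).factorial : ℕ) := by
      have h := Nat.choose_mul_factorial_mul_factorial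
        (show u.length + 1 ≤ u.length + v.length + 2 by omega)
      rw [show u.length + v.length + 2 - (u.length + 1) = v.length + 1 by omega] at h
      exact_mod_cast h
    rw [div_mul_div_comm, div_eq_div_iff (by positivity) (by positivity), ← hfac]
    ring
  · intro w
    have := R_nonneg okC (w.length - 2) w
    unfold Bc
    positivity
  · intro x w
    rw [Bc_rot]
    simp
  · intro σ w
    rw [Bc_map]
    simp
  · intro x w
    rw [Bc_dup, zero_div]
  · intro w hw
    rw [← (Equiv.funUnique (Fin 1) (Fin 4)).symm.sum_comp]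
    have h1 : ∀ x : Fin 4, w ++ List.ofFn ((Equiv.funUnique (Fin 1) (Fin 4)).symm x) =
        w ++ [x] := by
      intro x
      simp
    have hl : ∀ x : Fin 4, (w ++ [x]).length = w.length + 1 := by
      intro x
      simp
    simp only [h1, hl]
    obtain ⟨n, hn⟩ : ∃ n, w.length = n + 1 := ⟨w.length - 1, by omega⟩
    rw [← Finset.sum_div, Bc_star (by simp) n w hn, Nat.add_sub_cancel,
      mul_div_mul_left _ _ (by norm_num)]

end Pool.Agent.W753.CY
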